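import Mathlib

set_option autoImplicit false

namespace Pool.Agent.Work.MP_0ea01d_co.TD

/-- `G` is an `l`-uniform hypergraph on `n` vertices containing no complete `l`-uniform hypergraph
on `l + 1` vertices. -/
def NoClique (l n : ℕ) (G : Finset (Finset (Fin n))) : Prop :=
  (∀ e ∈ G, e.card = l) ∧
    ¬ ∃ Q : Finset (Fin n), Q.card = l + 1 ∧ ∀ e : Finset (Fin n), e ⊆ Q → e.card = l → e ∈ G

/-- The largest number of edges of such a hypergraph on `n` vertices. -/
noncomputable def turanNumber (l n : ℕ) : ℕ :=
  sSup {k : ℕ | ∃ G : Finset (Finset (Fin n)), NoClique l n G ∧ G.card = k}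

/-- The Turan density `t_l`, the limit of `turanNumber l n / C(n,l)`. -/
noncomputable def turanDensity (l : ℕ) : ℝ :=
  Filter.limUnder Filter.atTop fun n : ℕ => (turanNumber l n : ℝ) / n.choose l

end Pool.Agent.Work.MP_0ea01d_co.TD
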